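import Mathlib

/-!
# Nonzero base-p digits of n versus those of n^2

For `x = b ^ k` and `n = 1 + 2 x - x ^ 2 + 2 x ^ 3 + x ^ 4` one has
`n ^ 2 = 1 + 4 x + 2 x ^ 2 + 11 x ^ 4 + 2 x ^ 6 + 4 x ^ 7 + x ^ 8`, so `n ^ 2` has a bounded number of
nonzero digits in base `b`, while `2 x ^ 3 - x ^ 2 = x ^ 3 + x ^ 2 (b ^ k - 1)` gives `n` at least `k`
of them.
-/

set_option autoImplicit false

namespace Pool.Agent.H7DS.DigitsOfSquares

/-- `N b m` is the number of nonzero digits of the natural number `m` in base `b` -/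
def N (b m : ℕ) : ℕ := ((Nat.digits b m).filter (fun a => a ≠ 0)).length

theorem N_zero (b : ℕ) : N b 0 = 0 := by simp [N]

theorem N_rec (b m : ℕ) (hb : 2 ≤ b) : N b m = (if m % b = 0 then 0 else 1) + N b (m / b) := by
  rcases Nat.eq_zero_or_pos m with rfl | hm
  · simp [N_zero]
  · unfold N
    rw [Nat.digits_def' (by omega) hm]
    by_cases h : m % b = 0
    · simp [h]
    · simp [h]; omega

theorem N_add (b : ℕ) (hb : 2 ≤ b) (k : ℕ) : ∀ a c : ℕ, a < b ^ k →
    N b (a + b ^ k * c) = N b a + N b c := by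
  induction k with
  | zero =>
    intro a c ha
    have : a = 0 := by simpa using ha
    subst this
    simp [N_zero]
  | succ k ih =>
    intro a c ha
    have hb0 : 0 < b := by omega
    rw [N_rec b (a + b ^ (k + 1) * c) hb, N_rec b a hb]
    have e : a + b ^ (k + 1) * c = a + b * (b ^ k * c) := by ring
    have h1 : (a + b ^ (k + 1) * c) % b = a % b := by
      rw [e, Nat.add_mul_mod_self_left]
    have h2 : (a + b ^ (k + 1) * c) / b = a / b + b ^ k * c := by
      rw [e, Nat.add_mul_div_left _ _ hb0]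
    have h3 : a / b < b ^ k := by
      rw [Nat.div_lt_iff_lt_mul hb0]
      calc a < b ^ (k + 1) := ha
        _ = b ^ k * b := by ring
    rw [h1, h2, ih _ _ h3]
    ring

theorem N_small (b m : ℕ) (hb : 2 ≤ b) (hm : m < b) : N b m ≤ 1 := by
  rw [N_rec b m hb, Nat.div_eq_of_lt hm, N_zero]
  split_ifs <;> omega

theorem N_pow_sub_one (b : ℕ) (hb : 2 ≤ b) (k : ℕ) : N b (b ^ k - 1) = k := by
  induction k with
  | zero => simp [N_zero]
  | succ k ih =>
    have hpos : 1 ≤ b ^ k := Nat.one_le_pow _ _ (by omega)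
    have e : b ^ (k + 1) - 1 = (b - 1) + b ^ 1 * (b ^ k - 1) := by
      have h1 : b ^ (k + 1) = b * b ^ k := by ring
      obtain ⟨c, hc⟩ : ∃ c, b ^ k = c + 1 := ⟨b ^ k - 1, by omega⟩
      rw [h1, hc, pow_one, Nat.add_sub_cancel]
      obtain ⟨d, hd⟩ : ∃ d, b = d + 1 := ⟨b - 1, by omega⟩
      rw [hd, Nat.add_sub_cancel]
      have : (d + 1) * (c + 1) = (d + (d + 1) * c) + 1 := by ring
      rw [this, Nat.add_sub_cancel]
    rw [e, N_add b hb 1 (b - 1) _ (by rw [pow_one]; omega), ih, N_rec b (b - 1) hb,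
      Nat.mod_eq_of_lt (by omega), Nat.div_eq_of_lt (by omega), N_zero, if_neg (by omega)]
    ring

theorem N_one (b : ℕ) (hb : 2 ≤ b) : N b 1 = 1 := by
  rw [N_rec b 1 hb, Nat.mod_eq_of_lt (by omega), Nat.div_eq_of_lt (by omega), N_zero]
  simp

/-- the total number of nonzero digits of the coefficients `1, 4, 2, 0, 11, 0, 2, 4, 1` -/
theorem total (b : ℕ) (hb : 2 ≤ b) :
    N b 1 + (N b 4 + (N b 2 + (N b 0 + (N b 11 + (N b 0 + (N b 2 + (N b 4 + N b 1))))))) ≤ 10 := by
  rcases Nat.lt_or_ge b 12 with h | h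
  · interval_cases b <;> simp [N]
  · have h1 := N_small b 1 hb (by omega)
    have h2 := N_small b 2 hb (by omega)
    have h4 := N_small b 4 hb (by omega)
    have h11 := N_small b 11 hb (by omega)
    have h0 := N_zero b
    omega

/-- **Disproof of Q1 for every prime (and every base).** For every base `b ≥ 2` there are integers `n`
with arbitrarily many nonzero base-`b` digits whose squares have at most ten nonzero base-`b`
digits. -/
theorem result : ∀ b : ℕ, 2 ≤ b → ∀ l : ℕ, ∃ n : ℕ, N b (n ^ 2) ≤ 10 ∧ l < N b n := by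
  intro b hb l
  set k : ℕ := l + 4 with hk
  have hx : 16 ≤ b ^ k := by
    calc 16 = 2 ^ 4 := by norm_num
      _ ≤ b ^ 4 := Nat.pow_le_pow_left hb 4
      _ ≤ b ^ k := Nat.pow_le_pow_right (by omega) (by omega)
  obtain ⟨y, hy⟩ : ∃ y, b ^ k = y + 1 := ⟨b ^ k - 1, by omega⟩
  have hN : N b (b ^ k - 1) = k := N_pow_sub_one b hb k
  set x := b ^ k with hxdef
  refine ⟨1 + x * (2 + x * ((x - 1) + x * (1 + x * 1))), ?_, ?_⟩
  · have e : (1 + x * (2 + x * ((x - 1) + x * (1 + x * 1)))) ^ 2 =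
        1 + x * (4 + x * (2 + x * (0 + x * (11 + x * (0 + x * (2 + x * (4 + x * 1))))))) := by
      rw [hy, Nat.add_sub_cancel]
      ring
    rw [e, N_add b hb k _ _ (by omega), N_add b hb k _ _ (by omega), N_add b hb k _ _ (by omega),
      N_add b hb k _ _ (by omega), N_add b hb k _ _ (by omega), N_add b hb k _ _ (by omega),
      N_add b hb k _ _ (by omega), N_add b hb k _ _ (by omega)]
    exact total b hb
  · rw [N_add b hb k _ _ (by omega), N_add b hb k _ _ (by omega), N_add b hb k _ _ (by omega),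
      N_add b hb k _ _ (by omega), hN, N_one b hb]
    omega

end Pool.Agent.H7DS.DigitsOfSquares
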